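import Pool.Agent.Helper97.PL.STP
import Pool.Agent.Helper59.PL.PXL
import Pool.Agent.Helper79.PL.KF
import Pool.Agent.Helper90.PL.BRP
import Pool.Agent.Helper13.PLF.NONE
import Pool.Agent.Helper37.PL.FCL
import Pool.Agent.Helper29.PL.FIX
import Pool.Agent.Helper10.PLF.RSF
import Pool.Agent.Helper17.PL.CHN
import Pool.Agent.Helper70.PL.PLF
import Pool.Agent.Helper88.PL.TOWU
import Pool.Agent.Helper20.PL.TRT
import Pool.Agent.Helper28.PL.RCH
import Pool.Agent.Helper45.PL.OneF
import Pool.Agent.Helper97.PD.All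

/-!
# Project PL: the theorem at all finite pro-`ℓ` levels (assembly)
-/

set_option autoImplicit false

namespace Pool.Agent.PRL

/-- finite classes, common place -/
theorem fclA : StmtFCL := PRL37.fCL pXL kF bRP nONE

/-- the step -/
theorem stpA : StmtSTP := sTP PD.stmtLVL pXL kF bRP (rSF (fIX pXL) kF bRP) fclA

/-- THE GENERAL THEOREM -/
theorem plfA : StmtPLF := pLF cHN pXL stpA

/-- THE THEOREM FOR THE LINE -/
theorem oneA : StmtOneF := oneF plfA rCH PDL.oneA

end Pool.Agent.PRL
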