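import Pool.Agent.Helper97.PL.AllA
import Pool.Agent.Helper77.PL.RareF

/-!
# Project PL: the theorem for the line, absolute form (assembly)
-/

set_option autoImplicit false

namespace Pool.Agent.PRL

/-- **THE FINAL THEOREM, line, `ℓ` odd, all levels of the tower.** -/
theorem rareT : StmtRareF := rareF oneA tRT

end Pool.Agent.PRL
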