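import Pool.Agent.Helper13.PLF.Defs
import Pool.Agent.Helper45.PL.IND
import Pool.Agent.Helper29.PD.LVA

/-!
# Project PL, block STP: the step
-/

set_option autoImplicit false
set_option linter.unusedSectionVars false

namespace Pool.Agent.PRL

open VC IntermediateField NumberField IsDedekindDomain Pool.Agent.SC
open Filter Topology
open Pool.Agent.L (L0 MM)
open Pool.Agent.LN (Geo Act)
open Pool.Agent.M (Moves OverPl inL0 moves_comp moves_over moves_pow)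
open Pool.Agent.ML (HasMu BPl)
open Pool.Agent.TOW (Au AuE above59 over_trans' exists_im moves_inv)
open Pool.Agent.PDL (L0_le_MM K_mem au_L0 rare_mono45 eig_root act_au act_au_inv auE_pow)

section main

variable {k K0 E U : Type} [Field k] [NumberField k] [Field K0] [Field E] [Field U]
  [Algebra k K0] [Algebra k E] [Algebra E U] [Algebra K0 U] [Algebra k U] [IsScalarTower k E U]
  [IsScalarTower k K0 U] {ℓ : ℕ} {h : K0} {r : U}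

/-- the powers of an inertia element -/
theorem inr_pow97 {N : IntermediateField E U} {ι : U ≃+* U} {ζ : E} (hι : AuE E K0 ι)
    (hιr : ι r = algebraMap E U ζ * r) (i : ℕ) : (ι ^ i) r = algebraMap E U (ζ ^ i) * r := by
  induction i with
  | zero => simp
  | succ i ih =>
    rw [pow_succ']
    show ι ((ι ^ i) r) = _
    rw [ih, map_mul, hι.fixE, hιr, pow_succ, map_mul, mul_assoc]

/-- an inertia element, which exists at all places over branch places -/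
theorem exists_inr97 (geo : Geo k K0 E U ℓ h r) (hℓ : ℓ.Prime) (hPXL : StmtPXL)
    {N : IntermediateField E U} (hN : TW.Lvl E K0 N) (hMN : MM E K0 r ≤ N)
    {b₀ : Place E (L0 E K0 (U := U))} (hb₀ : BPl ℓ h b₀) {Q : Place E N} (hQ : OverPl b₀ Q) :
    ∃ ι : U ≃+* U, Inr K0 E ℓ r N ι ∧ Moves ι N Q Q := by
  obtain ⟨htriv, hbr⟩ := hPXL k K0 E U ℓ h r hℓ geo N hN hMN
  obtain ⟨-, -, -, hin⟩ := hbr b₀ hb₀
  obtain ⟨ι, ζ, hι, hζ, hιr, hιQ⟩ := hin Q hQ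
  refine ⟨ι, ⟨hι, ⟨ζ, hζ, hιr⟩, ?_⟩, hιQ⟩
  refine htriv (ι ^ ℓ) Q (auE_pow hι ℓ) ?_ (moves_pow (lvl_au hN hι.au) hιQ ℓ)
  rw [inr_pow97 (N := N) hι hιr, hζ.pow_eq_one, map_one, one_mul]

/-- the automorphisms over `L0` which fix a place are powers of the inertia element -/
theorem stab97 (geo : Geo k K0 E U ℓ h r) (hℓ : ℓ.Prime) (hPXL : StmtPXL)
    {N : IntermediateField E U} (hN : TW.Lvl E K0 N) (hMN : MM E K0 r ≤ N) {Q : Place E N}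
    {ι : U ≃+* U} (hι : Inr K0 E ℓ r N ι) (hιQ : Moves ι N Q Q) {T : U ≃+* U}
    (hT : AuE E K0 T) (hTQ : Moves T N Q Q) : ∃ i : ℕ, ∀ z ∈ N, T z = (ι ^ i) z := by
  have hcl : IsAlgClosed E := geo.clE
  have hr0 := geo_r0 geo hℓ
  have : NeZero ℓ := ⟨hℓ.ne_zero⟩
  obtain ⟨htriv, -⟩ := hPXL k K0 E U ℓ h r hℓ geo N hN hMN
  obtain ⟨ζ, hζ, hιr⟩ := hι.mul
  obtain ⟨ω, hω, hTr⟩ := eig_root (E := E) hℓ.pos hr0 (T := T) (by
    rw [geo.rpow]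
    exact hT.fixK _)
  obtain ⟨i, -, hi⟩ := hζ.eq_pow_of_pow_eq_one hω
  have hιN : ∀ (i : ℕ), ∀ z ∈ N, (ι ^ i) z ∈ N := fun i => lvl_au hN (auE_pow hι.auE i).au
  have hιN' : ∀ z ∈ N, (ι ^ i)⁻¹ z ∈ N := lvl_au hN (auE_pow hι.auE i).inv.au
  refine ⟨i, fun z hz => ?_⟩
  have h1 : ∀ z ∈ N, ((ι ^ i)⁻¹ * T) z = z := by
    refine htriv _ Q ((auE_pow hι.auE i).inv.mul hT) ?_ ?_
    · show (ι ^ i)⁻¹ (T r) = r
      rw [hTr, ← hi, ← inr_pow97 (N := N) hι.auE hιr]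
      exact (ι ^ i).symm_apply_apply r
    · have h2 : Moves (ι ^ i)⁻¹ N Q Q := moves_inv hιN' (moves_pow (lvl_au hN hι.auE.au) hιQ i)
      exact moves_comp (lvl_au hN hT.au) hTQ h2
  have h3 := h1 z hz
  change (ι ^ i).symm (T z) = z at h3
  rwa [RingEquiv.symm_apply_eq] at h3

/-- two actions which fix the same place of `N` agree on the elements fixed by the inertia -/
theorem act_eq97 (geo : Geo k K0 E U ℓ h r) (hℓ : ℓ.Prime) (hPXL : StmtPXL)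
    {N : IntermediateField E U} (hN : TW.Lvl E K0 N) (hMN : MM E K0 r ≤ N) {Q : Place E N}
    {ι : U ≃+* U} (hι : Inr K0 E ℓ r N ι) (hιQ : Moves ι N Q Q) {c c₀ : k}
    {Φ Φ₀ : (E ≃ₐ[k] E) →* (U ≃+* U)} (A : Act (K0 := K0) ℓ r c Φ) (A₀ : Act (K0 := K0) ℓ r c₀ Φ₀)
    {g : E ≃ₐ[k] E} (hm : Moves (Φ g) N Q Q) (hm₀ : Moves (Φ₀ g) N Q Q) {z : U} (hz : z ∈ N)
    (hιz : ι z = z) (h₀ : Φ₀ g z = z) : Φ g z = z := by
  have hst₀ : ∀ z ∈ N, (Φ₀ g)⁻¹ z ∈ N := lvl_au hN (act_au_inv A₀ g)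
  obtain ⟨i, hi⟩ := stab97 geo hℓ hPXL hN hMN hι hιQ (T := Φ g * (Φ₀ g)⁻¹) ⟨fun x => by
      show Φ g ((Φ₀ g)⁻¹ _) = _
      rw [TOW.inv_fix (A₀.fixK g x), A.fixK], fun e => by
      show Φ g ((Φ₀ g).symm _) = _
      have h1 : (Φ₀ g).symm (algebraMap E U e) = algebraMap E U (g.symm e) := by
        rw [RingEquiv.symm_apply_eq, A₀.const, AlgEquiv.apply_symm_apply]
      rw [h1, A.const, AlgEquiv.apply_symm_apply]⟩ (moves_comp hst₀ (moves_inv hst₀ hm₀) hm)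
  have h2 := hi z hz
  have h3 : ∀ i : ℕ, (ι ^ i) z = z := by
    intro i
    induction i with
    | zero => rfl
    | succ i ih =>
      rw [pow_succ]
      show (ι ^ i) (ι z) = z
      rw [hιz, ih]
  rw [h3] at h2
  change Φ g ((Φ₀ g).symm z) = z at h2
  have h4 : (Φ₀ g).symm z = z := by
    rw [RingEquiv.symm_apply_eq, h₀]
  rwa [h4] at h2

/-- an action which fixes the place commutes with the inertia element -/
theorem comm_inr97 (geo : Geo k K0 E U ℓ h r) (hℓ : ℓ.Prime) (hμ : HasMu k ℓ) (hPXL : StmtPXL)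
    {N : IntermediateField E U} (hN : TW.Lvl E K0 N) (hMN : MM E K0 r ≤ N) {Q : Place E N}
    {ι : U ≃+* U} (hι : Inr K0 E ℓ r N ι) (hιQ : Moves ι N Q Q) {c : k} (hc : c ≠ 0)
    {Φ : (E ≃ₐ[k] E) →* (U ≃+* U)} (A : Act (K0 := K0) ℓ r c Φ)
    {g : E ≃ₐ[k] E} (hm : Moves (Φ g) N Q Q) : ∀ z ∈ N, Φ g (ι z) = ι (Φ g z) := by
  have hcl : IsAlgClosed E := geo.clE
  have : NeZero ℓ := ⟨hℓ.ne_zero⟩
  have hr0 := geo_r0 geo hℓ
  obtain ⟨htriv, -⟩ := hPXL k K0 E U ℓ h r hℓ geo N hN hMN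
  obtain ⟨ζ, hζ, hιr⟩ := hι.mul
  have hst : ∀ z ∈ N, Φ g z ∈ N := lvl_au hN (act_au A g)
  have hst' : ∀ z ∈ N, (Φ g)⁻¹ z ∈ N := lvl_au hN (act_au_inv A g)
  have hιst : ∀ z ∈ N, ι z ∈ N := lvl_au hN hι.auE.au
  have hιst' : ∀ z ∈ N, ι⁻¹ z ∈ N := lvl_au hN hι.auE.inv.au
  have hfix : ∀ e : E, e ^ ℓ = 1 → g e = e := by
    intro e he
    obtain ⟨z, hz⟩ := hμ
    have h1 : IsPrimitiveRoot (algebraMap k E z) ℓ :=
      hz.map_of_injective (algebraMap k E).injective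
    obtain ⟨i, -, rfl⟩ := h1.eq_pow_of_pow_eq_one he
    rw [map_pow, g.commutes]
  obtain ⟨ω, hω, hΦr⟩ := eig_root (E := E) hℓ.pos hr0 (T := Φ g) (by
    rw [geo.rpow]
    exact A.fixK g _)
  have hT : AuE E K0 (ι⁻¹ * (Φ g)⁻¹ * ι * Φ g) := by
    constructor
    · intro x
      show ι⁻¹ ((Φ g)⁻¹ (ι (Φ g _))) = _
      rw [A.fixK, hι.auE.fixK, TOW.inv_fix (A.fixK g x), TOW.inv_fix (hι.auE.fixK x)]
    · intro e
      show ι⁻¹ ((Φ g).symm (ι (Φ g _))) = _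
      rw [A.const, hι.auE.fixE, ← A.const, RingEquiv.symm_apply_apply,
        TOW.inv_fix (hι.auE.fixE e)]
  have hTr : (ι⁻¹ * (Φ g)⁻¹ * ι * Φ g) r = r := by
    show ι.symm ((Φ g).symm (ι (Φ g r))) = r
    rw [RingEquiv.symm_apply_eq, RingEquiv.symm_apply_eq, hΦr, map_mul, hι.auE.fixE, hιr, map_mul,
      A.const, hfix ζ hζ.pow_eq_one, hΦr]
    ring
  have h5 := htriv _ Q hT hTr (moves_comp hst hm (moves_comp hιst hιQ
    (moves_comp hst' (moves_inv hst' hm) (moves_inv hιst' hιQ))))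
  intro z hz
  have h6 := h5 z hz
  change ι.symm ((Φ g).symm (ι (Φ g z))) = z at h6
  rw [RingEquiv.symm_apply_eq, RingEquiv.symm_apply_eq] at h6
  exact h6.symm

end main

/-- **BLOCK STP.** -/
theorem sTP (hLVL : PD.StmtLVL) (hPXL : StmtPXL) (hKF : StmtKF) (hBRP : StmtBRP)
    (hRSF : StmtRSF) (hFCL : StmtFCL) : StmtSTP := by
  intro k K0 E U _ _ _ _ _ _ _ _ _ _ _ _ ℓ h r hℓ hℓ2 hμ geo N₁ N' N hN₁ hMN₁ hab₁ hfour hN' hN₁N'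
    hN hPL hCen b₀ Q' hb₀ hQ'
  have hcl : IsAlgClosed E := geo.clE
  have hMN' : MM E K0 r ≤ N' := hMN₁.trans hN₁N'
  have hN'N : N' ≤ N := hCen.le
  by_cases hex : ∃ (c₀ : k) (Φ₀ : (E ≃ₐ[k] E) →* (U ≃+* U)), c₀ ≠ 0 ∧
      Act (K0 := K0) ℓ r c₀ Φ₀ ∧ ∀ g : E ≃ₐ[k] E, Moves (Φ₀ g) N' Q' Q'
  swap
  · refine rare_mono45 rare_false45 ?_
    rintro c hc ⟨Φ, A, hm, -⟩
    exact hex ⟨c, Φ, hc, A, hm⟩
  obtain ⟨c₀, Φ₀, hc₀, A₀, hm₀⟩ := hex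
  obtain ⟨ι, hι, hιQ⟩ := exists_inr97 geo hℓ hPXL hN' hMN' hb₀ hQ'
  have hcomm : ∀ g : E ≃ₐ[k] E, ∀ z ∈ N', Φ₀ g (ι z) = ι (Φ₀ g z) := fun g =>
    comm_inr97 geo hℓ hμ hPXL hN' hMN' hι hιQ hc₀ A₀ (hm₀ g)
  obtain ⟨hK0, hKF'⟩ := hKF k K0 E U ℓ h r hℓ hμ geo N' hN' hMN' ι hι c₀ Φ₀ hc₀ A₀ hcomm
  obtain ⟨h', hh'⟩ : ∃ h' : KI K0 N' ι Φ₀, (h' : U) = algebraMap K0 U h := ⟨⟨_, hK0 h⟩, rfl⟩
  obtain ⟨geo', hMM, hL0⟩ := hKF' h' hh'
  obtain ⟨R', hR'⟩ := hRSF k K0 E U ℓ h r hℓ hℓ2 hμ geo N₁ N' hN₁ hMN₁ hab₁ hfour hN' hN₁N'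
    (hPL.mono hN'N) b₀ Q' hb₀ hQ' ι hι hιQ c₀ Φ₀ hc₀ A₀ hcomm hm₀ h' hh'
  have hBR := (hBRP k K0 E U ℓ h r hℓ hμ geo N' hN' hMN' (KI K0 N' ι Φ₀) h' hh' hK0 geo' hMM ι hι
    hL0).1
  have hLvl' : TW.Lvl E (KI K0 N' ι Φ₀) N :=
    { ff := hN.ff
      le := fun y => hN'N y.2.1
      stab := fun T hT hE => hN.stab T (fun y => hT ⟨_, hK0 y⟩) hE }
  have hMM' : MM E (KI K0 N' ι Φ₀) r ≤ N := hMM.le.trans hN'N
  obtain ⟨hab, hexp⟩ := abel45 geo hℓ hPXL hN hMN' hN'N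
    (fun z hz hz1 => ⟨hCen.exp z hz hz1, fun a ha y hy => (hCen.cen a z ha hz hz1 y hy).symm⟩)
    hb₀ hQ' hK0 hMM (fun T hT hTQ z hz => by
      obtain ⟨hz1, hz2⟩ := (hL0 z).1 hz
      obtain ⟨i, hi⟩ := stab97 geo hℓ hPXL hN' hMN' hι hιQ hT hTQ
      rw [hi z hz1]
      clear hi
      induction i with
      | zero => rfl
      | succ i ih =>
        rw [pow_succ]
        show (ι ^ i) (ι z) = z
        rw [hz2, ih])
  have hAbE : AbE E (KI K0 N' ι Φ₀) ℓ N := ⟨hab, hexp⟩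
  refine rare_mono45 (rare_or45
    (hLVL k (KI K0 N' ι Φ₀) E U ℓ h' r hℓ hμ geo' R' hR' N hLvl' hMM' ?_ ?_)
    (PD.rare_union29 R' _ fun b' hb' => hFCL k (KI K0 N' ι Φ₀) E U ℓ h' r hℓ hμ geo' N hLvl' hMM'
      hAbE b' (hR'.br b' hb'))) ?_
  · intro a b ha hb y hy
    have h1 : AuE E (KI K0 N' ι Φ₀) (a : U ≃+* U) :=
      ⟨fun y => ha _ (K_mem y), fun e => a.commutes e⟩
    have h2 : AuE E (KI K0 N' ι Φ₀) (b : U ≃+* U) :=
      ⟨fun y => hb _ (K_mem y), fun e => b.commutes e⟩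
    exact hab _ _ h1 h2 y hy
  · intro a ha z hz
    have h1 : AuE E (KI K0 N' ι Φ₀) (a : U ≃+* U) :=
      ⟨fun y => ha _ (K_mem y), fun e => a.commutes e⟩
    have h3 : ∀ (n : ℕ) (z : U), (a ^ n) z = ((a : U ≃+* U) ^ n) z := by
      intro n
      induction n with
      | zero => intro z; rfl
      | succ n ih =>
        intro z
        rw [pow_succ, pow_succ]
        show (a ^ n) (a z) = ((a : U ≃+* U) ^ n) ((a : U ≃+* U) z)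
        rw [ih]
        rfl
    rw [h3]
    exact hexp _ h1 z hz
  · rintro c hc ⟨Φ, A, hm, hno⟩
    have A' : Act (K0 := KI K0 N' ι Φ₀) ℓ r c Φ :=
      { const := A.const
        fixK := fun g y => act_eq97 geo hℓ hPXL hN' hMN' hι hιQ A A₀ (hm g) (hm₀ g) y.2.1
          (y.2.2 ι hι.auE.au (Or.inl rfl)) (y.2.2 (Φ₀ g) (act_au A₀ g) (Or.inr ⟨g, rfl⟩))
        tw := A.tw
        cont := A.cont }
    by_cases hall : ∀ b' ∈ R', ∃ σ : E ≃ₐ[k] E, ¬ ∃ Q : Place E N, OverPl b' Q ∧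
        Moves (Φ σ) N Q Q
    · exact Or.inl ⟨Φ, A', hall⟩
    · push Not at hall
      obtain ⟨b', hb', hall⟩ := hall
      refine Or.inr ⟨b', hb', Φ, A', hall, ?_⟩
      rintro ⟨b₂, Q₂, hb₂, hQ₂, hm₂⟩
      obtain ⟨b, hb, hbb⟩ := (hBR b₂ hb₂).1
      refine hno ⟨b, Q₂, hb, ?_, hm₂⟩
      have h1 : L0 E K0 (U := U) ≤ L0 E (KI K0 N' ι Φ₀) (U := U) := by
        refine IntermediateField.adjoin_le_iff.2 ?_
        rintro _ ⟨x, rfl⟩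
        exact K_mem (⟨_, hK0 x⟩ : KI K0 N' ι Φ₀)
      exact over_trans' h1 hbb hQ₂

end Pool.Agent.PRL
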